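import Pool.Agent.Helper27.HY.Stm2
import Pool.Agent.Helper27.HY.Mat
import Pool.Agent.Helper27.HY.Decomp

/-!
# The representation of an array which is nonpositive on a hyperplane (D2)

By helper20.
-/

set_option autoImplicit false

open scoped BigOperators

namespace Pool.Agent.Helper27.HY

namespace Dd

open Dc

section sums

variable {J : Type} [Fintype J]

theorem swap3 (G : J → J → J → ℝ) :
    ∑ a, ∑ b, ∑ c, G a b c = ∑ a, ∑ b, ∑ c, G c b a := by
  calc ∑ a, ∑ b, ∑ c, G a b c = ∑ b, ∑ a, ∑ c, G a b c := Finset.sum_comm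
    _ = ∑ b, ∑ c, ∑ a, G a b c := Finset.sum_congr rfl fun b _ => Finset.sum_comm
    _ = ∑ c, ∑ b, ∑ a, G a b c := Finset.sum_comm

/-- the product of two vectors -/
def o (x y : J → ℝ) : J → J → ℝ := fun i j => x i * y j

variable (R : J → J → J → J → ℝ)

theorem c1 (h1 : ∀ a b c d, R b a c d = - R a b c d) (x y z w : J → ℝ) :
    T R (o x y) (o z w) = - T R (o z y) (o x w) := by
  unfold T
  rw [swap3 fun i j k => ∑ l, R i k j l * (o x y i j * o z w k l)]
  simp only [← Finset.sum_neg_distrib]
  refine Finset.sum_congr rfl fun i _ => Finset.sum_congr rfl fun j _ =>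
    Finset.sum_congr rfl fun k _ => Finset.sum_congr rfl fun l _ => ?_
  rw [h1 i k j l]
  unfold o
  ring

theorem c2 (h3 : ∀ a b c d, R a b d c = - R a b c d) (x y z w : J → ℝ) :
    T R (o x y) (o z w) = - T R (o x w) (o z y) := by
  unfold T
  simp only [← Finset.sum_neg_distrib]
  refine Finset.sum_congr rfl fun i _ => ?_
  rw [swap3 fun j k l => R i k j l * (o x y i j * o z w k l)]
  refine Finset.sum_congr rfl fun j _ =>
    Finset.sum_congr rfl fun k _ => Finset.sum_congr rfl fun l _ => ?_
  rw [h3 i k j l]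
  unfold o
  ring

theorem z1 (h1 : ∀ a b c d, R b a c d = - R a b c d) (x y w : J → ℝ) :
    T R (o x y) (o x w) = 0 := by
  have := c1 R h1 x y x w
  linarith

theorem z2 (h3 : ∀ a b c d, R a b d c = - R a b c d) (x y z : J → ℝ) :
    T R (o x y) (o z y) = 0 := by
  have := c2 R h3 x y z y
  linarith

/-- the Lorentzian inequality -/
theorem lor1 (h1 : ∀ a b c d, R b a c d = - R a b c d) (h2 : ∀ a b c d, R c d a b = R a b c d)
    (N : J → J → ℝ) (hN : ∀ h : J → J → ℝ, (∀ a b, h a b = h b a) →
      ∑ i, ∑ j, N i j * h i j = 0 → T R h h ≤ 0)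
    (k h : J → J → ℝ) (hk : ∀ a b, k a b = k b a) (hh : ∀ a b, h a b = h b a)
    (hkk : 0 < T R k k) : T R k k * T R h h ≤ T R k h ^ 2 := by
  set nk : ℝ := ∑ i, ∑ j, N i j * k i j with hnk
  set nh : ℝ := ∑ i, ∑ j, N i j * h i j with hnh
  have hk0 : nk ≠ 0 := by
    intro h0
    exact absurd (hN k hk h0) (not_le.2 hkk)
  set c : ℝ := -(nh / nk) with hc
  have hg : T R (fun i j => h i j + c * k i j) (fun i j => h i j + c * k i j) ≤ 0 := by
    refine hN _ (fun a b => by rw [hh a b, hk a b]) ?_
    have e : ∀ i j, N i j * (h i j + c * k i j) = N i j * h i j + c * (N i j * k i j) :=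
      fun i j => by ring
    simp only [e, Finset.sum_add_distrib, ← Finset.mul_sum]
    rw [← hnk, ← hnh, hc]
    field_simp
    ring
  have e1 : T R (fun i j => h i j + c * k i j) (fun i j => h i j + c * k i j) =
      T R h h + 2 * c * T R k h + c ^ 2 * T R k k := by
    rw [T_add_left, T_add_right, T_add_right, T_smul_left, T_smul_left, T_smul_right,
      T_smul_right, T_comm R h1 h2 h k]
    ring
  rw [e1] at hg
  nlinarith [mul_le_mul_of_nonneg_left hg hkk.le, sq_nonneg (T R k h + c * T R k k)]

theorem sec_nonneg (h1 : ∀ a b c d, R b a c d = - R a b c d)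
    (h2 : ∀ a b c d, R c d a b = R a b c d)
    (N : J → J → ℝ) (hN : ∀ h : J → J → ℝ, (∀ a b, h a b = h b a) →
      ∑ i, ∑ j, N i j * h i j = 0 → T R h h ≤ 0) (x y : J → ℝ) :
    0 ≤ T R (o x x) (o y y) := by
  have h3 : ∀ a b c d, R a b d c = - R a b c d := fun a b c d => by
    rw [h2 d c a b, h1 c d a b, h2 a b c d]
  by_contra hcon
  push Not at hcon
  set κ := T R (o x x) (o y y) with hκ
  have e0 : T R (o y y) (o x x) = κ := T_comm R h1 h2 _ _
  have e1 : T R (fun i j => o x x i j + (-1) * o y y i j)
      (fun i j => o x x i j + (-1) * o y y i j) = -2 * κ := by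
    rw [T_add_left, T_add_right, T_add_right, T_smul_left, T_smul_left, T_smul_right,
      T_smul_right, z1 R h1 x x x, z1 R h1 y y y, e0, ← hκ]
    ring
  have e2 : T R (fun i j => o x y i j + o y x i j) (fun i j => o x y i j + o y x i j) =
      -2 * κ := by
    rw [T_add_left, T_add_right, T_add_right, z1 R h1 x y y, z1 R h1 y x x,
      c2 R h3 x y y x, c2 R h3 y x x y, e0, ← hκ]
    ring
  have e3 : T R (fun i j => o x x i j + (-1) * o y y i j)
      (fun i j => o x y i j + o y x i j) = 0 := by
    rw [T_add_left, T_add_right, T_smul_left, T_add_right, z1 R h1 x x y, z2 R h3 x x y,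
      z2 R h3 y y x, z1 R h1 y y x]
    ring
  have h4 := lor1 R h1 h2 N hN (fun i j => o x x i j + (-1) * o y y i j)
    (fun i j => o x y i j + o y x i j) (fun a b => by unfold o; ring)
    (fun a b => by unfold o; ring) (by rw [e1]; linarith)
  rw [e1, e2, e3] at h4
  nlinarith

end sums

variable {J : Type} [Fintype J] [DecidableEq J] (R : J → J → J → J → ℝ)

/-- the matrix of `x ↦ R(x, y, x, y)` -/
def My (y : J → ℝ) : Matrix J J ℝ := fun i j => ∑ k, ∑ l, R i k j l * (y k * y l)

/-- the Ricci matrix -/
def rho : Matrix J J ℝ := fun k l => ∑ i, R i k i l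

omit [DecidableEq J] in
theorem qf_My (x y : J → ℝ) : qf (My R y) x = T R (o x x) (o y y) := by
  unfold qf My T o
  refine Finset.sum_congr rfl fun i _ => Finset.sum_congr rfl fun j _ => ?_
  rw [Finset.sum_mul]
  refine Finset.sum_congr rfl fun k _ => ?_
  rw [Finset.sum_mul]
  exact Finset.sum_congr rfl fun l _ => by ring

omit [DecidableEq J] in
theorem My_symm (h2 : ∀ a b c d, R c d a b = R a b c d) (y : J → ℝ) (i j : J) :
    My R y i j = My R y j i := by
  unfold My
  rw [Finset.sum_comm]
  refine Finset.sum_congr rfl fun k _ => Finset.sum_congr rfl fun l _ => ?_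
  rw [h2 i l j k]
  ring

omit [DecidableEq J] in
theorem trace_My (y : J → ℝ) : ∑ i, My R y i i = qf (rho R) y := by
  unfold My qf rho
  rw [Finset.sum_comm]
  refine Finset.sum_congr rfl fun k _ => ?_
  rw [Finset.sum_comm]
  refine Finset.sum_congr rfl fun l _ => ?_
  rw [Finset.sum_mul]

theorem qf_single (M : Matrix J J ℝ) (a : J) : qf M (Pi.single a 1) = M a a := by
  unfold qf
  rw [Finset.sum_eq_single a, Finset.sum_eq_single a]
  · simp
  · intro b _ hb
    simp [hb]
  · simp
  · intro b _ hb
    simp [hb]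
  · simp

/-- a positive semidefinite matrix with nonpositive trace -/
theorem psd_zero {M : Matrix J J ℝ} (hs : ∀ i j, M i j = M j i) (hp : ∀ x, 0 ≤ qf M x)
    (ht : ∑ i, M i i ≤ 0) (i j : J) : M i j = 0 := by
  obtain ⟨m, a, ha⟩ := psd_dec hs hp
  have e : ∑ i, M i i = ∑ i, ∑ k, a k i ^ 2 := by
    refine Finset.sum_congr rfl fun i _ => ?_
    rw [ha]
    exact Finset.sum_congr rfl fun k _ => by ring
  have h0 : ∑ i, ∑ k, a k i ^ 2 = 0 :=
    le_antisymm (by rw [← e]; exact ht) (Finset.sum_nonneg fun i _ => Finset.sum_nonneg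
      fun k _ => sq_nonneg _)
  have h1 : ∀ i k, a k i = 0 := by
    intro i k
    have h2 := (Finset.sum_eq_zero_iff_of_nonneg (fun i _ => Finset.sum_nonneg
      fun k _ => sq_nonneg _)).1 h0 i (Finset.mem_univ i)
    have h3 := (Finset.sum_eq_zero_iff_of_nonneg (fun k _ => sq_nonneg _)).1 h2 k
      (Finset.mem_univ k)
    exact pow_eq_zero_iff (two_ne_zero) |>.1 h3
  rw [ha]
  exact Finset.sum_eq_zero fun k _ => by rw [h1 i k, zero_mul]

/-- the array vanishes if its Ricci form has nonpositive trace -/
theorem zero_of (hCv : Cv R) (hsec : ∀ x y, 0 ≤ T R (o x x) (o y y))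
    (ht : ∑ i, rho R i i ≤ 0) (i k j l : J) : R i k j l = 0 := by
  obtain ⟨h1, h2, hb⟩ := hCv
  have hMp : ∀ y x, 0 ≤ qf (My R y) x := fun y x => by
    rw [qf_My]
    exact hsec x y
  have hrp : ∀ y, 0 ≤ qf (rho R) y := fun y => by
    rw [← trace_My]
    refine Finset.sum_nonneg fun a _ => ?_
    have h9 := hMp y (Pi.single a 1)
    rw [qf_single] at h9
    exact h9
  have hrs : ∀ i j, rho R i j = rho R j i := fun i j => by
    unfold rho
    exact Finset.sum_congr rfl fun a _ => h2 a j a i
  have hr0 := psd_zero hrs hrp ht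
  have hM0 : ∀ y i j, My R y i j = 0 := fun y i j => by
    refine psd_zero (My_symm R h2 y) (hMp y) ?_ i j
    rw [trace_My]
    unfold qf
    simp [hr0]
  have hkk : ∀ i j k, R i k j k = 0 := fun i j k => by
    have h4 := hM0 (Pi.single k 1) i j
    unfold My at h4
    rw [Finset.sum_eq_single k, Finset.sum_eq_single k] at h4
    · simpa using h4
    · intro b _ hb
      simp [hb]
    · simp
    · intro b _ hb
      simp [hb]
    · simp
  have hkl : ∀ i j k l, R i k j l + R i l j k = 0 := fun i j k l => by
    rcases eq_or_ne k l with rfl | hne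
    · rw [hkk, add_zero]
    · have h4 := hM0 (fun a => (if a = k then 1 else 0) + (if a = l then 1 else 0)) i j
      unfold My at h4
      simp only [mul_add, Finset.sum_add_distrib, mul_ite, mul_one, mul_zero,
        Finset.sum_ite_eq', Finset.mem_univ, if_true] at h4
      simp only [hkk] at h4
      linarith
  have a1 := hkl i j k l
  have b1 : ∀ i k j l, R i k j l = - R i l j k := fun i k j l => by
    linarith [hkl i j k l]
  have b2 : ∀ i k j l, R i k j l = - R j k i l := fun i k j l => by
    rw [b1 i k j l, h2 j k i l]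
  have b3 := hb i k j l
  have b4 : R k j i l = R j i k l := by
    rw [b2 k j i l, h1 j i k l, neg_neg]
  have b5 : R j i k l = R i k j l := by
    rw [b2 j i k l, h1 i k j l, neg_neg]
  rw [b4, b5] at b3
  linarith

/-- the array of the decomposition -/
noncomputable def C' (A0 : J → J → ℝ) (i j k l : J) : ℝ :=
  A0 i j * A0 k l - 1 / 2 * (R i k j l + R i l j k)

omit [DecidableEq J] in
theorem C'_form (h2 : ∀ a b c d, R c d a b = R a b c d) (A0 : J → J → ℝ) (X : J → J → ℝ) :
    ∑ i, ∑ j, ∑ k, ∑ l, X i j * X k l * C' R A0 i j k l =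
      (∑ i, ∑ j, A0 i j * X i j) ^ 2 -
        T R (fun i j => 1 / 2 * (X i j + X j i)) (fun i j => 1 / 2 * (X i j + X j i)) := by
  have e1 : ∑ i, ∑ j, ∑ k, ∑ l, X i j * X k l * C' R A0 i j k l =
      (∑ i, ∑ j, ∑ k, ∑ l, (A0 i j * X i j) * (A0 k l * X k l)) -
      1 / 2 * (∑ i, ∑ j, ∑ k, ∑ l, R i k j l * (X i j * X k l)) -
      1 / 2 * (∑ i, ∑ j, ∑ k, ∑ l, R i l j k * (X i j * X k l)) := by
    simp only [Finset.mul_sum, ← Finset.sum_sub_distrib]
    refine Finset.sum_congr rfl fun i _ => Finset.sum_congr rfl fun j _ =>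
      Finset.sum_congr rfl fun k _ => Finset.sum_congr rfl fun l _ => ?_
    unfold C'
    ring
  have e2 : ∑ i, ∑ j, ∑ k, ∑ l, (A0 i j * X i j) * (A0 k l * X k l) =
      (∑ i, ∑ j, A0 i j * X i j) ^ 2 := by
    simp only [← Finset.mul_sum, ← Finset.sum_mul, sq]
  have e3 : ∑ i, ∑ j, ∑ k, ∑ l, R i l j k * (X i j * X k l) = T R X (fun k l => X l k) := by
    unfold T
    refine Finset.sum_congr rfl fun i _ => Finset.sum_congr rfl fun j _ => ?_
    rw [Finset.sum_comm]
  have e4 : ∑ i, ∑ j, ∑ k, ∑ l, R i k j l * (X i j * X k l) = T R X X := rfl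
  rw [e1, e2, e3, e4]
  have t1 : T R (fun i j => 1 / 2 * (X i j + X j i)) (fun i j => 1 / 2 * (X i j + X j i)) =
      1 / 4 * (T R X X + T R X (fun i j => X j i) + T R (fun i j => X j i) X +
        T R (fun i j => X j i) (fun i j => X j i)) := by
    rw [T_smul_left, T_smul_right, T_add_left, T_add_right, T_add_right]
    ring
  have t2 : T R (fun i j => X j i) X = T R X (fun i j => X j i) := T_transp R h2 X X
  have t3 : T R (fun i j => X j i) (fun i j => X j i) = T R X X :=
    T_transp R h2 X (fun i j => X j i)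
  rw [t1, t2, t3]
  ring

/-- the identity matrix -/
def dl : J → J → ℝ := fun i j => if i = j then 1 else 0

theorem T_dl (h : J → J → ℝ) : T R dl h = ∑ k, ∑ l, rho R k l * h k l := by
  unfold T dl rho
  have e : ∀ i, ∑ j, ∑ k, ∑ l, R i k j l * ((if i = j then 1 else 0) * h k l) =
      ∑ k, ∑ l, R i k i l * h k l := fun i => by
    rw [Finset.sum_eq_single i]
    · simp
    · intro b _ hb
      simp [hb.symm]
    · simp
  simp only [e, Finset.sum_mul]
  rw [Finset.sum_comm]
  refine Finset.sum_congr rfl fun k _ => ?_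
  rw [Finset.sum_comm]

end Dd

open Dc Dd in
/-- **D2** -/
theorem decomp2 : Decomp2Stm := by
  intro J _ _ R hCv hOne
  obtain ⟨N, hN⟩ := hOne
  have h1 := hCv.1
  have h2 := hCv.2.1
  have hb := hCv.2.2
  have h3 : ∀ a b c d, R a b d c = - R a b c d := fun a b c d => by
    rw [h2 d c a b, h1 c d a b, h2 a b c d]
  have hsec : ∀ x y, 0 ≤ T R (o x x) (o y y) := fun x y => sec_nonneg R h1 h2 N hN x y
  rcases le_or_gt (∑ i, rho R i i) 0 with hs | hs
  · have hz : ∀ i k j l, R i k j l = 0 := fun i k j l => zero_of R hCv hsec hs i k j l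
    refine ⟨0, 0, fun a => a.elim0, fun i j => rfl, fun k => k.elim0, fun x => by simp,
      fun x => by simp, fun i j k l => ?_⟩
    simp [Bf, hz]
  · set s : ℝ := ∑ i, rho R i i with hsd
    have hss : 0 < √s := Real.sqrt_pos.2 hs
    have hsq : √s * √s = s := Real.mul_self_sqrt hs.le
    have hrs : ∀ i j, rho R i j = rho R j i := fun i j => by
      unfold rho
      exact Finset.sum_congr rfl fun a _ => h2 a j a i
    have hrp : ∀ y, 0 ≤ qf (rho R) y := fun y => by
      rw [← trace_My]
      refine Finset.sum_nonneg fun a _ => ?_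
      have h9 : 0 ≤ qf (My R y) (Pi.single a 1) := by
        rw [qf_My]
        exact hsec _ _
      rw [qf_single] at h9
      exact h9
    have hTdd : T R dl dl = s := by
      rw [T_dl, hsd]
      refine Finset.sum_congr rfl fun k _ => ?_
      unfold dl
      simp
    set A0 : Matrix J J ℝ := fun i j => rho R i j / √s with hA0
    have hA0X : ∀ X : J → J → ℝ, ∑ i, ∑ j, A0 i j * X i j = T R dl X / √s := fun X => by
      rw [T_dl, Finset.sum_div]
      refine Finset.sum_congr rfl fun i _ => ?_
      rw [Finset.sum_div]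
      refine Finset.sum_congr rfl fun j _ => ?_
      rw [hA0]
      ring
    have hdls : ∀ a b : J, dl a b = dl b a := fun a b => by
      unfold dl
      by_cases hab : a = b
      · rw [hab]
      · rw [if_neg hab, if_neg (fun h => hab h.symm)]
    -- nonnegativity
    have hQ : ∀ X : J → J → ℝ, 0 ≤ ∑ i, ∑ j, ∑ k, ∑ l, X i j * X k l * C' R A0 i j k l := by
      intro X
      rw [C'_form R h2, hA0X]
      have e1 : T R dl X = T R dl (fun i j => 1 / 2 * (X i j + X j i)) := by
        rw [T_smul_right, T_add_right]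
        have e2 : T R dl (fun i j => X j i) = T R dl X := by
          rw [← T_transp R h2 dl X]
          congr 1
          funext i j
          exact hdls j i
        rw [e2]
        ring
      have h4 := lor1 R h1 h2 N hN dl (fun i j => 1 / 2 * (X i j + X j i)) hdls
        (fun a b => by ring) (by rw [hTdd]; exact hs)
      rw [hTdd, ← e1] at h4
      rw [div_pow, sq (√s), hsq, sub_nonneg, le_div_iff₀ hs]
      linarith
    -- the matrix
    set CM : Matrix (J × J) (J × J) ℝ := Matrix.of fun p q => C' R A0 p.1 p.2 q.1 q.2 with hCM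
    have hH : CM.IsHermitian := by
      ext p q
      simp only [hCM, Matrix.conjTranspose_apply, Matrix.of_apply, star_trivial, C']
      rw [h1 p.1 q.1 q.2 p.2, h3 p.1 q.1 p.2 q.2, h2 q.2 p.1 q.1 p.2, h1 p.1 q.2 q.1 p.2,
        h3 p.1 q.2 p.2 q.1]
      ring
    have hP : CM.PosSemidef := by
      refine Matrix.PosSemidef.of_dotProduct_mulVec_nonneg hH fun x => ?_
      have := hQ (fun i j => x (i, j))
      have e : star x ⬝ᵥ (CM.mulVec x) =
          ∑ i, ∑ j, ∑ k, ∑ l, x (i, j) * x (k, l) * C' R A0 i j k l := by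
        simp only [dotProduct, Matrix.mulVec, hCM, Matrix.of_apply, star_trivial,
          Fintype.sum_prod_type, Pi.star_apply]
        refine Finset.sum_congr rfl fun i _ => Finset.sum_congr rfl fun j _ => ?_
        rw [Finset.mul_sum]
        refine Finset.sum_congr rfl fun k _ => ?_
        rw [Finset.mul_sum]
        exact Finset.sum_congr rfl fun l _ => by ring
      rw [e]
      exact this
    obtain ⟨m, v, hv⟩ := Matrix.posSemidef_iff_eq_sum_vecMulVec.1 hP
    have hg : ∀ a b c d, ∑ i, v i (a, b) * v i (c, d) = C' R A0 a b c d := by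
      intro a b c d
      have e1 : CM (a, b) (c, d) = C' R A0 a b c d := rfl
      rw [← e1, hv, Matrix.sum_apply]
      simp [Matrix.vecMulVec_apply]
    have hA0s : ∀ i j, A0 i j = A0 j i := fun i j => by
      rw [hA0]
      simp only [hrs i j]
    have hCs : ∀ a b c d, C' R A0 b a c d = C' R A0 a b c d := by
      intro a b c d
      unfold C'
      rw [h2 a d b c, h2 a c b d, hA0s b a]
      ring
    have hCs' : ∀ a b c d, C' R A0 a b d c = C' R A0 a b c d := by
      intro a b c d
      unfold C'
      rw [hA0s d c]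
      ring
    refine ⟨m, A0, fun k => Matrix.of fun a b => v k (a, b), hA0s, ?_, ?_, ?_, ?_⟩
    · intro n a b
      have e1 : ∑ i, (v i (a, b) - v i (b, a)) * (v i (a, b) - v i (b, a)) = 0 := by
        have e : ∀ i, (v i (a, b) - v i (b, a)) * (v i (a, b) - v i (b, a)) =
            v i (a, b) * v i (a, b) - v i (a, b) * v i (b, a) - v i (b, a) * v i (a, b) +
            v i (b, a) * v i (b, a) := fun i => by ring
        simp only [e, Finset.sum_add_distrib, Finset.sum_sub_distrib, hg]
        rw [hCs' a b a b, hCs a b a b, hCs a b b a, hCs' a b a b]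
        ring
      have e2 := (Finset.sum_eq_zero_iff_of_nonneg
        (fun i _ => mul_self_nonneg (v i (a, b) - v i (b, a)))).1 e1 n (Finset.mem_univ n)
      have e3 := mul_self_eq_zero.1 e2
      simp only [Matrix.of_apply]
      linarith
    · intro x
      have h4 := hrp x
      have e : ∑ i, ∑ j, A0 i j * (x i * x j) = qf (rho R) x / √s := by
        unfold qf
        rw [Finset.sum_div]
        refine Finset.sum_congr rfl fun i _ => ?_
        rw [Finset.sum_div]
        refine Finset.sum_congr rfl fun j _ => ?_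
        rw [hA0]
        ring
      rw [e]
      positivity
    · intro x
      have e1 := C'_form R h2 A0 (o x x)
      have e2 : (fun i j => 1 / 2 * (o x x i j + o x x j i)) = o x x := by
        funext i j
        unfold o
        ring
      rw [e2, z1 R h1 x x x, sub_zero] at e1
      have e3 : ∑ k, (∑ i, ∑ j, v k (i, j) * (x i * x j)) ^ 2 =
          ∑ i, ∑ j, ∑ k, ∑ l, o x x i j * o x x k l * C' R A0 i j k l := by
        have e4 : ∀ n, (∑ i, ∑ j, v n (i, j) * (x i * x j)) ^ 2 =
            ∑ i, ∑ j, ∑ k, ∑ l, (x i * x j) * (x k * x l) * (v n (i, j) * v n (k, l)) := by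
          intro n
          rw [sq, Finset.sum_mul]
          refine Finset.sum_congr rfl fun i _ => ?_
          rw [Finset.sum_mul]
          refine Finset.sum_congr rfl fun j _ => ?_
          rw [Finset.mul_sum]
          refine Finset.sum_congr rfl fun k _ => ?_
          rw [Finset.mul_sum]
          exact Finset.sum_congr rfl fun l _ => by ring
        simp only [e4]
        rw [Finset.sum_comm]
        refine Finset.sum_congr rfl fun i _ => ?_
        rw [Finset.sum_comm]
        refine Finset.sum_congr rfl fun j _ => ?_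
        rw [Finset.sum_comm]
        refine Finset.sum_congr rfl fun k _ => ?_
        rw [Finset.sum_comm]
        refine Finset.sum_congr rfl fun l _ => ?_
        rw [← Finset.mul_sum, hg]
        rfl
      simp only [Matrix.of_apply]
      rw [e3, e1]
      exact le_rfl
    · intro i j k l
      have e1 : ∀ i j k l, Bf A0 (fun k => Matrix.of fun a b => v k (a, b)) i j k l =
          1 / 2 * (R i k j l + R i l j k) := by
        intro i j k l
        unfold Bf
        simp only [Matrix.of_apply, hg]
        unfold C'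
        ring
      rw [e1, e1, h1 i k j l]
      have b1 := hb i k j l
      have b2 : R k l j i = R j i k l := h2 j i k l
      have b3 : R i l j k = - R k j i l := by
        rw [h2 j k i l, h1 k j i l]
      rw [b2, b3]
      linarith

end Pool.Agent.Helper27.HY
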